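import Pool.Agent.H28.EN.Targets

/-!
# Board en1_modules, row GEO: the geometric series on the multiples of `q`
-/

set_option autoImplicit false

open Finset Pool.Agent.H6.N4D Pool.Agent.H93.EB

namespace Pool.Agent.H60.EN1

open Pool.Agent.H28.EN

theorem two_nd_le (x : ℝ) : 2 * nd x ≤ |Real.sin (Real.pi * x)| := by
  have h1 : Real.sin (Real.pi * (x - round x)) = (-1) ^ (round x) * Real.sin (Real.pi * x) := by
    rw [mul_sub, mul_comm Real.pi (round x : ℝ), Real.sin_sub_int_mul_pi]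
  have h2 : |Real.sin (Real.pi * (x - round x))| = |Real.sin (Real.pi * x)| := by
    rw [h1, abs_mul, abs_zpow, abs_neg, abs_one, one_zpow, one_mul]
  rw [← h2]
  have h3 : ∀ t : ℝ, 0 ≤ t → t ≤ 1 / 2 → 2 * t ≤ Real.sin (Real.pi * t) := by
    intro t ht ht2
    have := Real.mul_le_sin (x := Real.pi * t) (by positivity) (by nlinarith [Real.pi_pos])
    have e : 2 / Real.pi * (Real.pi * t) = 2 * t := by
      field_simp
    rwa [e] at this
  have h4 := abs_sub_round x
  unfold nd
  rcases le_total 0 (x - round x) with h | h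
  · rw [abs_of_nonneg h] at h4 ⊢
    exact (h3 _ h h4).trans (le_abs_self _)
  · rw [abs_of_nonpos h] at h4 ⊢
    have h5 := h3 _ (neg_nonneg.2 h) h4
    rw [mul_neg Real.pi, Real.sin_neg] at h5
    exact h5.trans (neg_le_abs _)

theorem sum_mult (q n N : ℕ) (hq : 1 ≤ q) (f : ℕ → ℝ) :
    ∑ m ∈ (Ioc n (n + N)).filter (fun m => q ∣ m), f m =
      ∑ k ∈ Ioc (n / q) ((n + N) / q), f (q * k) := by
  refine Finset.sum_nbij' (fun m => m / q) (fun k => q * k) ?_ ?_ ?_ ?_ ?_
  · intro m hm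
    rw [mem_filter, mem_Ioc] at hm
    obtain ⟨⟨h1, h2⟩, c, rfl⟩ := hm
    rw [mem_Ioc, Nat.mul_div_cancel_left c (by omega)]
    refine ⟨(Nat.div_lt_iff_lt_mul (by omega)).2 (by rwa [mul_comm]), ?_⟩
    exact (Nat.le_div_iff_mul_le (by omega)).2 (by rwa [mul_comm])
  · intro k hk
    rw [mem_Ioc] at hk
    rw [mem_filter, mem_Ioc]
    have h1 := (Nat.div_lt_iff_lt_mul (by omega)).1 hk.1
    have h2 := (Nat.le_div_iff_mul_le (by omega)).1 hk.2
    rw [mul_comm] at h1 h2
    exact ⟨⟨h1, h2⟩, dvd_mul_right _ _⟩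
  · intro m hm
    rw [mem_filter] at hm
    exact Nat.mul_div_cancel' hm.2
  · intro k _
    exact Nat.mul_div_cancel_left k (by omega)
  · intro m hm
    rw [mem_filter] at hm
    rw [Nat.mul_div_cancel' hm.2]

theorem tele (x γ : ℝ) (a b : ℕ) (hab : a ≤ b) :
    2 * Real.sin (Real.pi * x) * ∑ k ∈ Ioc a b, Real.cos (2 * Real.pi * (k * x + γ)) =
      Real.sin (2 * Real.pi * (b * x + γ) + Real.pi * x) -
        Real.sin (2 * Real.pi * (a * x + γ) + Real.pi * x) := by
  induction b, hab using Nat.le_induction with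
  | base => simp
  | succ b hb ih =>
    rw [← Finset.insert_Ioc_right_eq_Ioc_add_one hb, Finset.sum_insert (by simp), mul_add, ih]
    have h1 : 2 * Real.sin (Real.pi * x) * Real.cos (2 * Real.pi * ((b + 1 : ℕ) * x + γ)) =
        Real.sin (2 * Real.pi * ((b + 1 : ℕ) * x + γ) + Real.pi * x) -
          Real.sin (2 * Real.pi * (b * x + γ) + Real.pi * x) := by
      have h2 : 2 * Real.pi * (b * x + γ) + Real.pi * x =
          2 * Real.pi * ((b + 1 : ℕ) * x + γ) - Real.pi * x := by
        push_cast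
        ring
      rw [h2, Real.sin_add, Real.sin_sub]
      ring
    rw [h1]
    ring

theorem pf_GEO : T_GEO := by
  intro q N n β γ hq hnd
  rw [sum_mult q n N hq (fun m => Real.cos (2 * Real.pi * (β * m + γ)))]
  have hle : n / q ≤ (n + N) / q := Nat.div_le_div_right (by omega)
  have h1 := tele (q * β) γ (n / q) ((n + N) / q) hle
  have h2 : ∑ k ∈ Ioc (n / q) ((n + N) / q), Real.cos (2 * Real.pi * (β * ((q * k : ℕ) : ℝ) + γ)) =
      ∑ k ∈ Ioc (n / q) ((n + N) / q), Real.cos (2 * Real.pi * (k * (q * β) + γ)) := by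
    refine Finset.sum_congr rfl fun k _ => ?_
    congr 2
    push_cast
    ring
  rw [h2]
  set S := ∑ k ∈ Ioc (n / q) ((n + N) / q), Real.cos (2 * Real.pi * (k * (q * β) + γ)) with hS
  have h3 : |2 * Real.sin (Real.pi * (q * β)) * S| ≤ 2 := by
    rw [h1]
    refine (abs_sub _ _).trans ?_
    have a1 := Real.abs_sin_le_one (2 * Real.pi * (((n + N) / q : ℕ) * (q * β) + γ) +
      Real.pi * (q * β))
    have a2 := Real.abs_sin_le_one (2 * Real.pi * ((n / q : ℕ) * (q * β) + γ) +
      Real.pi * (q * β))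
    linarith
  rw [abs_mul, abs_mul, abs_two] at h3
  rw [le_div_iff₀ (by positivity)]
  have h4 := two_nd_le (q * β)
  have h5 := mul_le_mul_of_nonneg_right h4 (abs_nonneg S)
  nlinarith [abs_nonneg S]

end Pool.Agent.H60.EN1
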