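import Pool.Agent.H28.EN.Targets

/-!
# Board en1_modules, row PK2: the peak, large differences
-/

set_option autoImplicit false

open Finset Pool.Agent.H6.N4D Pool.Agent.H93.EB

namespace Pool.Agent.H60.EN1

open Pool.Agent.H28.EN

theorem ee_re (x : ℝ) : (ee x).re = Real.cos (2 * Real.pi * x) := by
  unfold ee
  rw [Complex.exp_ofReal_mul_I_re]

theorem ee_lip (x y : ℝ) : ‖ee x - ee y‖ ≤ 2 * Real.pi * |x - y| := by
  have h1 : ee x - ee y = ee y * (ee (x - y) - 1) := by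
    rw [mul_sub, ← ee_add, mul_one]
    congr 2
    ring
  rw [h1, norm_mul, norm_ee, one_mul]
  unfold ee
  rw [mul_comm _ Complex.I]
  refine Real.norm_exp_I_mul_ofReal_sub_one_le.trans (le_of_eq ?_)
  rw [Real.norm_eq_abs, abs_mul, abs_of_pos (by positivity : (0 : ℝ) < 2 * Real.pi)]

theorem sin_nd (x : ℝ) : 8 * nd x ^ 2 ≤ 1 - Real.cos (2 * Real.pi * x) := by
  have h1 : Real.sin (Real.pi * (x - round x)) = (-1) ^ (round x) * Real.sin (Real.pi * x) := by
    rw [mul_sub, mul_comm Real.pi (round x : ℝ), Real.sin_sub_int_mul_pi]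
  have h2 : |Real.sin (Real.pi * (x - round x))| = |Real.sin (Real.pi * x)| := by
    rw [h1, abs_mul, abs_zpow, abs_neg, abs_one, one_zpow, one_mul]
  have h3 : ∀ t : ℝ, 0 ≤ t → t ≤ 1 / 2 → 2 * t ≤ Real.sin (Real.pi * t) := by
    intro t ht ht2
    have := Real.mul_le_sin (x := Real.pi * t) (by positivity) (by nlinarith [Real.pi_pos])
    have e : 2 / Real.pi * (Real.pi * t) = 2 * t := by
      field_simp
    rwa [e] at this
  have h6 : 2 * nd x ≤ |Real.sin (Real.pi * x)| := by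
    rw [← h2]
    have h4 := abs_sub_round x
    unfold nd
    rcases le_total 0 (x - round x) with h | h
    · rw [abs_of_nonneg h] at h4 ⊢
      exact (h3 _ h h4).trans (le_abs_self _)
    · rw [abs_of_nonpos h] at h4 ⊢
      have h5 := h3 _ (neg_nonneg.2 h) h4
      rw [mul_neg Real.pi, Real.sin_neg] at h5
      exact h5.trans (neg_le_abs _)
  have h7 : Real.cos (2 * Real.pi * x) = 1 - 2 * Real.sin (Real.pi * x) ^ 2 := by
    rw [mul_assoc, Real.cos_two_mul, Real.cos_sq']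
    ring
  rw [h7, ← sq_abs (Real.sin (Real.pi * x))]
  have h8 : (2 * nd x) ^ 2 ≤ |Real.sin (Real.pi * x)| ^ 2 :=
    pow_le_pow_left₀ (mul_nonneg (by norm_num) (nd_nonneg x)) h6 2
  nlinarith

/-- the correlation with the second wave -/
theorem G_re (lam : ℕ → ℝ) (N n : ℕ) (θ φ r s : ℝ) :
    G lam N n (th N θ s) (ph N n φ r s) =
      ((∑ m ∈ Ioc n (n + N), (lam m : ℂ) * ee (-(θ * m + φ)) * ee (-(r + s * tt N n m))) /
        (N : ℂ)).re := by
  unfold G
  rw [Complex.div_natCast_re, Complex.re_sum]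
  congr 1
  refine Finset.sum_congr rfl fun m _ => ?_
  have h1 : (lam m : ℂ) * ee (-(θ * m + φ)) * ee (-(r + s * tt N n m)) =
      (lam m : ℂ) * ee (-(θ * m + φ) + -(r + s * tt N n m)) := by
    rw [ee_add, mul_assoc]
  rw [h1, Complex.re_ofReal_mul, ee_re, ← Real.cos_neg]
  congr 2
  unfold th ph tt
  ring

theorem mean_re (N n : ℕ) (r s : ℝ) :
    ((∑ m ∈ Ioc n (n + N), ee (-(r + s * tt N n m))) / (N : ℂ)).re =
      (∑ m ∈ Ioc n (n + N), Real.cos (2 * Real.pi * (r + s * tt N n m))) / N := by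
  rw [Complex.div_natCast_re, Complex.re_sum]
  congr 1
  refine Finset.sum_congr rfl fun m _ => ?_
  rw [ee_re, mul_neg, Real.cos_neg]

theorem pf_PK2 (h1 : T_UNF) (h2 : T_NDS) (h3 : T_GEO) : T_PK2 := by
  intro lam L n θ φ r s hlam hL hReg _ hG hM hrs1 hr hs
  have hπ3 := Real.pi_gt_three
  have hπ4 := Real.pi_lt_d2
  have hNn : 0 < 2 ^ 15 * L := by positivity
  have hN0 : (0 : ℝ) < ((2 ^ 15 * L : ℕ) : ℝ) := by exact_mod_cast hNn
  have hL1 : (1 : ℝ) ≤ L := by exact_mod_cast hL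
  have hNL : ((2 ^ 15 * L : ℕ) : ℝ) = 32768 * L := by
    push_cast
    norm_num
  have hunf := h1 lam L n θ φ 1 (2 * Real.pi * |s| / 32768)
    (fun m => ee (-(r + s * tt (2 ^ 15 * L) n m))) hlam hL hReg hG (fun m _ => (norm_ee _).le)
    (by positivity) (by
      intro u _ m hm m' hm'
      refine (ee_lip _ _).trans ?_
      have e1 : -(r + s * tt (2 ^ 15 * L) n m) - -(r + s * tt (2 ^ 15 * L) n m') =
          s * ((m' : ℝ) - m) / (32768 * L) := by
        unfold tt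
        rw [hNL]
        ring
      rw [mem_Ioc] at hm hm'
      have e2 : |(m' : ℝ) - m| ≤ L := by
        have a1 : (m : ℝ) ≤ n + u * L + L := by exact_mod_cast hm.2
        have a2 : (m' : ℝ) ≤ n + u * L + L := by exact_mod_cast hm'.2
        have a3 : (n : ℝ) + u * L ≤ m := by exact_mod_cast hm.1.le
        have a4 : (n : ℝ) + u * L ≤ m' := by exact_mod_cast hm'.1.le
        rw [abs_le]
        constructor <;> linarith
      rw [e1, abs_div, abs_mul, abs_of_pos (by positivity : (0 : ℝ) < 32768 * L)]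
      have e3 : |s| * |(m' : ℝ) - m| / (32768 * L) ≤ |s| * L / (32768 * L) := by
        gcongr
      have e4 : |s| * L / (32768 * L) = |s| / 32768 := by
        field_simp
      rw [e4] at e3
      have e5 := mul_le_mul_of_nonneg_left e3 (by positivity : (0 : ℝ) ≤ 2 * Real.pi)
      refine e5.trans (le_of_eq ?_)
      ring)
  have hre := (Complex.re_le_norm _).trans hunf
  rw [Complex.sub_re, ← G_re, Complex.re_ofReal_mul, mean_re] at hre
  rw [hG]
  set m0 : ℝ := (∑ m ∈ Ioc n (n + 2 ^ 15 * L),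
    Real.cos (2 * Real.pi * (r + s * tt (2 ^ 15 * L) n m))) / ((2 ^ 15 * L : ℕ) : ℝ) with hm0
  set MM := M lam (2 ^ 15 * L) n with hMM
  set GP := G lam (2 ^ 15 * L) n (th (2 ^ 15 * L) θ s) (ph (2 ^ 15 * L) n φ r s) with hGP
  have hρ : 0 ≤ |r| + |s| := by positivity
  have hπs : Real.pi * |s| ≤ 3.15 * |s| := mul_le_mul_of_nonneg_right hπ4.le (abs_nonneg s)
  by_cases hs1 : |s| ≤ 1
  · have hnds := h2 (2 ^ 14 * L) n r s (by
      have : 0 < 2 ^ 14 * L := by positivity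
      omega) hr hs1
    have e0 : 2 * (2 ^ 14 * L) = 2 ^ 15 * L := by ring
    rw [e0] at hnds
    have hc : (|r| + |s|) ^ 2 / 18 ≤ 1 - m0 := by
      have c1 : (∑ m ∈ Ioc n (n + 2 ^ 15 * L), 8 * nd (r + s * tt (2 ^ 15 * L) n m) ^ 2) ≤
          ∑ m ∈ Ioc n (n + 2 ^ 15 * L),
            (1 - Real.cos (2 * Real.pi * (r + s * tt (2 ^ 15 * L) n m))) :=
        Finset.sum_le_sum fun m _ => sin_nd _
      rw [← Finset.mul_sum, Finset.sum_sub_distrib, Finset.sum_const, Nat.card_Ioc,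
        Nat.add_sub_cancel_left, nsmul_eq_mul, mul_one] at c1
      rw [le_div_iff₀ hN0] at hnds
      have c2 : m0 * ((2 ^ 15 * L : ℕ) : ℝ) = ∑ m ∈ Ioc n (n + 2 ^ 15 * L),
          Real.cos (2 * Real.pi * (r + s * tt (2 ^ 15 * L) n m)) := by
        rw [hm0]
        field_simp
      rw [← c2] at c1
      have c3 : (|r| + |s|) ^ 2 / 18 * ((2 ^ 15 * L : ℕ) : ℝ) ≤
          (1 - m0) * ((2 ^ 15 * L : ℕ) : ℝ) := by
        have c4 : (|r| + |s|) ^ 2 / 18 * ((2 ^ 15 * L : ℕ) : ℝ) =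
            8 * ((|r| + |s|) ^ 2 / 144 * ((2 ^ 15 * L : ℕ) : ℝ)) := by ring
        have c5 : (1 - m0) * ((2 ^ 15 * L : ℕ) : ℝ) =
            ((2 ^ 15 * L : ℕ) : ℝ) - m0 * ((2 ^ 15 * L : ℕ) : ℝ) := by ring
        rw [c4, c5]
        exact (mul_le_mul_of_nonneg_left hnds (by norm_num)).trans c1
      exact le_of_mul_le_mul_right c3 hN0
    have hρ2 : 9 / 100 ≤ (|r| + |s|) ^ 2 := by
      have := pow_le_pow_left₀ (by norm_num : (0 : ℝ) ≤ 3 / 10) hrs1 2
      norm_num at this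
      linarith
    have hm1 : 0 ≤ 1 - m0 := le_trans (by positivity) hc
    have k1 : 62 / 100 * (1 - m0) ≤ MM * (1 - m0) := mul_le_mul_of_nonneg_right hM hm1
    have k2 : Real.pi * |s| ≤ 3.15 := hπs.trans (by linarith)
    have k3 : MM * (1 - m0) = MM - MM * m0 := by ring
    rw [k3] at k1
    have k4 : 2 * (2 * Real.pi * |s| / 32768) ≤ 4 / 10000 := by
      have : 2 * (2 * Real.pi * |s| / 32768) = 4 * (Real.pi * |s|) / 32768 := by ring
      rw [this]
      linarith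
    norm_num at hre k4 ⊢
    linarith
  · rw [not_le] at hs1
    have hbeta : |s / ((2 ^ 15 * L : ℕ) : ℝ)| ≤ 1 / 2 := by
      rw [abs_div, abs_of_pos hN0, div_le_iff₀ hN0, hNL]
      linarith
    have hnd : nd (((1 : ℕ) : ℝ) * (s / ((2 ^ 15 * L : ℕ) : ℝ))) = |s| / ((2 ^ 15 * L : ℕ) : ℝ) := by
      rw [Nat.cast_one, one_mul, nd_eq_abs hbeta, abs_div, abs_of_pos hN0]
    have hg := h3 1 (2 ^ 15 * L) n (s / ((2 ^ 15 * L : ℕ) : ℝ)) (r - s * n / ((2 ^ 15 * L : ℕ) : ℝ))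
      le_rfl (by rw [hnd]; positivity)
    rw [hnd] at hg
    have e1 : (Ioc n (n + 2 ^ 15 * L)).filter (fun m => 1 ∣ m) = Ioc n (n + 2 ^ 15 * L) :=
      Finset.filter_true_of_mem fun m _ => one_dvd m
    have e2 : ∑ m ∈ Ioc n (n + 2 ^ 15 * L), Real.cos (2 * Real.pi *
        (s / ((2 ^ 15 * L : ℕ) : ℝ) * m + (r - s * n / ((2 ^ 15 * L : ℕ) : ℝ)))) =
        ∑ m ∈ Ioc n (n + 2 ^ 15 * L),
          Real.cos (2 * Real.pi * (r + s * tt (2 ^ 15 * L) n m)) := by
      refine Finset.sum_congr rfl fun m _ => ?_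
      congr 2
      unfold tt
      ring
    rw [e1, e2] at hg
    have hm1 : m0 ≤ 1 / 2 := by
      rw [hm0, div_le_iff₀ hN0]
      refine (le_abs_self _).trans (hg.trans ?_)
      have e3 : 1 / (2 * (|s| / ((2 ^ 15 * L : ℕ) : ℝ))) = ((2 ^ 15 * L : ℕ) : ℝ) / (2 * |s|) := by
        field_simp
      rw [e3, div_le_iff₀ (by positivity)]
      have e4 : 1 / 2 * ((2 ^ 15 * L : ℕ) : ℝ) * (2 * |s|) = ((2 ^ 15 * L : ℕ) : ℝ) * |s| := by
        ring
      rw [e4]
      exact le_mul_of_one_le_right hN0.le hs1.le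
    have hρ2 : (|r| + |s|) ^ 2 ≤ 30.25 := by
      have := pow_le_pow_left₀ hρ (by linarith : |r| + |s| ≤ 5.5) 2
      norm_num at this ⊢
      linarith
    have k1 : 62 / 100 * (1 - m0) ≤ MM * (1 - m0) := mul_le_mul_of_nonneg_right hM (by linarith)
    have k2 : Real.pi * |s| ≤ 15.75 := hπs.trans (by linarith)
    have k3 : MM * (1 - m0) = MM - MM * m0 := by ring
    rw [k3] at k1
    have k4 : 2 * (2 * Real.pi * |s| / 32768) ≤ 2 / 1000 := by
      have : 2 * (2 * Real.pi * |s| / 32768) = 4 * (Real.pi * |s|) / 32768 := by ring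
      rw [this]
      linarith
    norm_num at hre k4 hρ2 ⊢
    linarith

end Pool.Agent.H60.EN1
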