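import Pool.Agent.H28.EN.Targets

/-!
# Board en1_modules, row UNF: on a regular window the product with the wave is uniform
-/

set_option autoImplicit false

open Finset Pool.Agent.H6.N4D Pool.Agent.H93.EB

namespace Pool.Agent.H60.EN1

open Pool.Agent.H28.EN

theorem split_sum {E : Type*} [AddCommMonoid E] (F : ℕ → E) (L n K : ℕ) :
    ∑ m ∈ Ioc n (n + K * L), F m =
      ∑ u ∈ range K, ∑ m ∈ Ioc (n + u * L) (n + u * L + L), F m := by
  induction K with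
  | zero => simp
  | succ K ih =>
    rw [Finset.sum_range_succ, ← ih]
    have h1 : n + (K + 1) * L = n + K * L + L := by ring
    rw [h1, Finset.sum_Ioc_consecutive F (by omega) (by omega)]

/-- one block -/
theorem block {L c₀ : ℕ} (hL : 1 ≤ L) (w g : ℕ → ℂ) (c : ℂ) {δ : ℝ}
    (hw : ∀ m ∈ Ioc c₀ (c₀ + L), ‖w m‖ ≤ 1) (hg : ∀ m ∈ Ioc c₀ (c₀ + L), ‖g m - c‖ ≤ δ) :
    ‖(∑ m ∈ Ioc c₀ (c₀ + L), w m * g m) / (L : ℂ) -
      (∑ m ∈ Ioc c₀ (c₀ + L), w m) / (L : ℂ) * c‖ ≤ δ := by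
  have hL0 : (0 : ℝ) < L := by exact_mod_cast hL
  have h1 : (∑ m ∈ Ioc c₀ (c₀ + L), w m * g m) / (L : ℂ) -
      (∑ m ∈ Ioc c₀ (c₀ + L), w m) / (L : ℂ) * c =
      (∑ m ∈ Ioc c₀ (c₀ + L), w m * (g m - c)) / (L : ℂ) := by
    rw [div_mul_eq_mul_div, ← sub_div, Finset.sum_mul, ← Finset.sum_sub_distrib]
    congr 1
    exact Finset.sum_congr rfl fun m _ => by ring
  rw [h1, norm_div, Complex.norm_natCast, div_le_iff₀ hL0]
  refine (norm_sum_le _ _).trans ?_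
  have h2 : ∑ m ∈ Ioc c₀ (c₀ + L), ‖w m * (g m - c)‖ ≤ ∑ m ∈ Ioc c₀ (c₀ + L), δ := by
    refine Finset.sum_le_sum fun m hm => ?_
    rw [norm_mul]
    calc ‖w m‖ * ‖g m - c‖ ≤ 1 * ‖g m - c‖ :=
          mul_le_mul_of_nonneg_right (hw m hm) (norm_nonneg _)
      _ ≤ δ := by rw [one_mul]; exact hg m hm
  rw [Finset.sum_const, Nat.card_Ioc, Nat.add_sub_cancel_left, nsmul_eq_mul] at h2
  rw [mul_comm δ]
  exact h2

theorem unf_gen (h1 : T_GRE) (h2 : T_TOP) (h3 : T_SPL) (lam : ℕ → ℝ) (K L n : ℕ)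
    (θ φ a δ ε : ℝ) (g : ℕ → ℂ) (hlam : ∀ m, |lam m| ≤ 1) (hK : 1 ≤ K) (hL : 1 ≤ L)
    (hε : 0 ≤ ε)
    (hReg : (∑ u ∈ range K, M lam L (n + u * L) ^ 2) / K ≤ M lam (K * L) n ^ 2 + ε ^ 2)
    (hG : G lam (K * L) n θ φ = M lam (K * L) n)
    (hga : ∀ m ∈ Ioc n (n + K * L), ‖g m‖ ≤ a)
    (hgd : ∀ u < K, ∀ m ∈ Ioc (n + u * L) (n + u * L + L),
      ∀ m' ∈ Ioc (n + u * L) (n + u * L + L), ‖g m - g m'‖ ≤ δ) :
    ‖(∑ m ∈ Ioc n (n + K * L), (lam m : ℂ) * ee (-(θ * m + φ)) * g m) / ((K * L : ℕ) : ℂ) -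
      (M lam (K * L) n : ℂ) * ((∑ m ∈ Ioc n (n + K * L), g m) / ((K * L : ℕ) : ℂ))‖ ≤
    a * ε + 2 * δ := by
  have hK0 : (0 : ℝ) < K := by exact_mod_cast hK
  have hL0 : (0 : ℝ) < L := by exact_mod_cast hL
  have hKc : (K : ℂ) ≠ 0 := by exact_mod_cast hK0.ne'
  have hLc : (L : ℂ) ≠ 0 := by exact_mod_cast hL0.ne'
  set MM : ℝ := M lam (K * L) n with hMM
  set ζ : ℕ → ℂ := fun u => ee (-φ) * cr lam L (n + u * L) θ with hζ
  have hζn : ∀ u, ‖ζ u‖ ≤ M lam L (n + u * L) := by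
    intro u
    rw [hζ]
    simp only
    rw [norm_mul, norm_ee, one_mul]
    exact (h2 lam L (n + u * L)).1 θ
  have hMM0 : 0 ≤ MM := (norm_nonneg _).trans ((h2 lam (K * L) n).1 θ)
  have hζm : (∑ u ∈ range K, ζ u) / (K : ℂ) = ee (-φ) * cr lam (K * L) n θ := by
    rw [(h3 lam L K n hL hK).1 θ, hζ]
    simp only
    rw [← Finset.mul_sum, mul_div_assoc]
  have hζre : (∑ u ∈ range K, (ζ u).re) / (K : ℝ) = MM := by
    rw [← hG, h1, ← hζm, Complex.div_natCast_re, Complex.re_sum]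
  -- the mean square
  have hsq : (∑ u ∈ range K, ‖ζ u - MM‖ ^ 2) / (K : ℝ) ≤ ε ^ 2 := by
    have e1 : ∀ u, ‖ζ u - MM‖ ^ 2 = ‖ζ u‖ ^ 2 - 2 * MM * (ζ u).re + MM ^ 2 := by
      intro u
      rw [← Complex.normSq_eq_norm_sq, ← Complex.normSq_eq_norm_sq, Complex.normSq_apply,
        Complex.normSq_apply, Complex.sub_re, Complex.sub_im, Complex.ofReal_re, Complex.ofReal_im]
      ring
    have e2 : ∑ u ∈ range K, ‖ζ u - MM‖ ^ 2 = ∑ u ∈ range K, ‖ζ u‖ ^ 2 -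
        2 * MM * ∑ u ∈ range K, (ζ u).re + K * MM ^ 2 := by
      rw [Finset.sum_congr rfl fun u _ => e1 u, Finset.sum_add_distrib, Finset.sum_sub_distrib,
        ← Finset.mul_sum, Finset.sum_const, Finset.card_range, nsmul_eq_mul]
    have e3 : ∑ u ∈ range K, ‖ζ u‖ ^ 2 ≤ ∑ u ∈ range K, M lam L (n + u * L) ^ 2 :=
      Finset.sum_le_sum fun u _ => pow_le_pow_left₀ (norm_nonneg _) (hζn u) 2
    rw [div_eq_iff hK0.ne'] at hζre
    rw [div_le_iff₀ hK0] at hReg ⊢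
    rw [e2, hζre]
    nlinarith
  have hmean : (∑ u ∈ range K, ‖ζ u - MM‖) / (K : ℝ) ≤ ε := by
    have e1 := sq_sum_le_card_mul_sum_sq (s := range K) (f := fun u => ‖ζ u - MM‖)
    rw [Finset.card_range] at e1
    have e2 : ((∑ u ∈ range K, ‖ζ u - MM‖) / (K : ℝ)) ^ 2 ≤ ε ^ 2 := by
      rw [div_pow, div_le_iff₀ (by positivity)]
      rw [div_le_iff₀ hK0] at hsq
      calc _ ≤ (K : ℝ) * ∑ u ∈ range K, ‖ζ u - MM‖ ^ 2 := e1
        _ ≤ K * (ε ^ 2 * K) := mul_le_mul_of_nonneg_left hsq hK0.le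
        _ = ε ^ 2 * K ^ 2 := by ring
    exact le_of_sq_le_sq e2 hε
  -- bound for MM
  have hMM1 : MM ≤ 1 := by
    have e1 : ‖cr lam (K * L) n θ‖ ≤ 1 := by
      unfold cr
      have hKL : (0 : ℝ) < ((K * L : ℕ) : ℝ) := by push_cast; positivity
      rw [norm_div, Complex.norm_natCast, div_le_iff₀ hKL, one_mul]
      refine (norm_sum_le _ _).trans ?_
      have e2 : ∑ m ∈ Ioc n (n + K * L), ‖(lam m : ℂ) * ee (-(θ * m))‖ ≤
          ∑ m ∈ Ioc n (n + K * L), (1 : ℝ) := by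
        refine Finset.sum_le_sum fun m _ => ?_
        rw [norm_mul, norm_ee, mul_one, Complex.norm_real]
        exact hlam m
      rw [Finset.sum_const, Nat.card_Ioc, Nat.add_sub_cancel_left, nsmul_eq_mul, mul_one] at e2
      exact e2
    rw [← hG, h1]
    refine (Complex.re_le_norm _).trans ?_
    rw [norm_mul, norm_ee, one_mul]
    exact e1
  -- the blocks
  have hcm : ∀ u, n + u * L + 1 ∈ Ioc (n + u * L) (n + u * L + L) := fun u => by
    rw [mem_Ioc]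
    omega
  have hδ : 0 ≤ δ := by
    have := hgd 0 (by omega) _ (hcm 0) _ (hcm 0)
    rw [sub_self, norm_zero] at this
    exact this
  have hbA : ∀ u < K, ‖(∑ m ∈ Ioc (n + u * L) (n + u * L + L),
      (lam m : ℂ) * ee (-(θ * m + φ)) * g m) / (L : ℂ) - ζ u * g (n + u * L + 1)‖ ≤ δ := by
    intro u hu
    have e1 := block hL (fun m => (lam m : ℂ) * ee (-(θ * m + φ))) g (g (n + u * L + 1)) (δ := δ)
      (c₀ := n + u * L) (fun m _ => by
        rw [norm_mul, norm_ee, mul_one, Complex.norm_real]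
        exact hlam m) (fun m hm => hgd u hu m hm _ (hcm u))
    have e2 : (∑ m ∈ Ioc (n + u * L) (n + u * L + L), (lam m : ℂ) * ee (-(θ * m + φ))) / (L : ℂ) =
        ζ u := by
      rw [hζ]
      simp only
      unfold cr
      rw [← mul_div_assoc, Finset.mul_sum]
      congr 1
      refine Finset.sum_congr rfl fun m _ => ?_
      have e3 : -(θ * (m : ℝ) + φ) = -φ + -(θ * m) := by ring
      rw [e3, ee_add]
      ring
    rw [e2] at e1
    exact e1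
  have hbB : ∀ u < K, ‖(∑ m ∈ Ioc (n + u * L) (n + u * L + L), g m) / (L : ℂ) -
      g (n + u * L + 1)‖ ≤ δ := by
    intro u hu
    have e1 := block hL (fun _ => (1 : ℂ)) g (g (n + u * L + 1)) (δ := δ)
      (c₀ := n + u * L) (fun m _ => by simp) (fun m hm => hgd u hu m hm _ (hcm u))
    have e2 : (∑ m ∈ Ioc (n + u * L) (n + u * L + L), (1 : ℂ)) / (L : ℂ) = 1 := by
      rw [Finset.sum_const, Nat.card_Ioc, Nat.add_sub_cancel_left, nsmul_eq_mul, mul_one]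
      exact div_self hLc
    rw [e2, one_mul] at e1
    simp only [one_mul] at e1
    exact e1
  have hga' : ∀ u < K, ‖g (n + u * L + 1)‖ ≤ a := by
    intro u hu
    apply hga
    rw [mem_Ioc]
    have : (u + 1) * L ≤ K * L := Nat.mul_le_mul_right L (by omega)
    have e : (u + 1) * L = u * L + L := by ring
    omega
  have hdec : (∑ m ∈ Ioc n (n + K * L), (lam m : ℂ) * ee (-(θ * m + φ)) * g m) /
      ((K * L : ℕ) : ℂ) - (MM : ℂ) * ((∑ m ∈ Ioc n (n + K * L), g m) / ((K * L : ℕ) : ℂ)) =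
      (∑ u ∈ range K, ((∑ m ∈ Ioc (n + u * L) (n + u * L + L),
        (lam m : ℂ) * ee (-(θ * m + φ)) * g m) / (L : ℂ) -
        MM * ((∑ m ∈ Ioc (n + u * L) (n + u * L + L), g m) / (L : ℂ)))) / (K : ℂ) := by
    rw [split_sum (fun m => (lam m : ℂ) * ee (-(θ * m + φ)) * g m), split_sum g,
      Finset.sum_sub_distrib, ← Finset.mul_sum, ← Finset.sum_div, ← Finset.sum_div]
    push_cast
    field_simp
  rw [hdec, norm_div, Complex.norm_natCast, div_le_iff₀ hK0]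
  refine (norm_sum_le _ _).trans ?_
  have hterm : ∀ u ∈ range K, ‖(∑ m ∈ Ioc (n + u * L) (n + u * L + L),
      (lam m : ℂ) * ee (-(θ * m + φ)) * g m) / (L : ℂ) -
      MM * ((∑ m ∈ Ioc (n + u * L) (n + u * L + L), g m) / (L : ℂ))‖ ≤
      a * ‖ζ u - MM‖ + 2 * δ := by
    intro u hu
    rw [mem_range] at hu
    set A := (∑ m ∈ Ioc (n + u * L) (n + u * L + L),
      (lam m : ℂ) * ee (-(θ * m + φ)) * g m) / (L : ℂ) with hA
    set B := (∑ m ∈ Ioc (n + u * L) (n + u * L + L), g m) / (L : ℂ) with hB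
    set c := g (n + u * L + 1) with hc
    have e1 : A - MM * B = (A - ζ u * c) + (ζ u - MM) * c - MM * (B - c) := by ring
    rw [e1]
    refine (norm_sub_le _ _).trans ?_
    have e2 := norm_add_le (A - ζ u * c) ((ζ u - MM) * c)
    rw [norm_mul] at e2
    rw [norm_mul, Complex.norm_real, Real.norm_of_nonneg hMM0]
    have e3 := hbA u hu
    have e4 := hbB u hu
    have e5 : ‖ζ u - MM‖ * ‖c‖ ≤ ‖ζ u - MM‖ * a :=
      mul_le_mul_of_nonneg_left (hga' u hu) (norm_nonneg _)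
    have e6 : MM * ‖B - c‖ ≤ 1 * δ := mul_le_mul hMM1 e4 (norm_nonneg _) zero_le_one
    linarith
  refine (Finset.sum_le_sum hterm).trans ?_
  rw [Finset.sum_add_distrib, ← Finset.mul_sum, Finset.sum_const, Finset.card_range, nsmul_eq_mul]
  rw [div_le_iff₀ hK0] at hmean
  have ha : 0 ≤ a := (norm_nonneg _).trans (hga' 0 (by omega))
  have := mul_le_mul_of_nonneg_left hmean ha
  linarith

theorem pf_UNF (h1 : T_GRE) (h2 : T_TOP) (h3 : T_SPL) : T_UNF := by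
  intro lam L n θ φ a δ g hlam hL hReg hG hga _ hgd
  have h := unf_gen h1 h2 h3 lam (2 ^ 15) L n θ φ a δ (1 / 10 ^ 4) g hlam (by norm_num) hL
    (by norm_num) (by
      have e : ((2 ^ 15 : ℕ) : ℝ) = 2 ^ 15 := by norm_num
      have e2 : (1 / 10 ^ 4 : ℝ) ^ 2 = 1 / 10 ^ 8 := by norm_num
      rw [e, e2]
      exact hReg) hG hga hgd
  refine h.trans (le_of_eq ?_)
  ring

end Pool.Agent.H60.EN1
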